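import Pool.Agent.K1H22.SR.Stm2

/-!
# The trivial group
-/

set_option autoImplicit false

open Pool.Agent.K1H22.SR2

namespace Pool.Agent.K1H52.SR2

open Classical in
/-- the productions for the paths to `q` -/
def LL {T M : Type} [AddCommMonoid M] (E : Finset (T × Unit × M × T)) (q p : T) :
    Set (M × (T → ℕ)) :=
  ((fun e : T × Unit × M × T => (e.2.2.1, (Pi.single e.2.2.2 1 : T → ℕ))) '' {e | e ∈ E ∧ e.1 = p}) ∪
    {x | p = q ∧ x = (0, 0)}

lemma LL_finite {T M : Type} [AddCommMonoid M] (E : Finset (T × Unit × M × T)) (q p : T) :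
    (LL E q p).Finite := by
  refine Set.Finite.union (Set.Finite.image _ (E.finite_toSet.subset fun e he => he.1))
    ((Set.finite_singleton ((0 : M), (0 : T → ℕ))).subset ?_)
  rintro x ⟨-, rfl⟩
  rfl

open Classical in
lemma ded_of {T M : Type} [AddCommMonoid M] (E : Finset (T × Unit × M × T)) {p q : T} {g : Unit}
    {v : M} (h : GW E p q g v) : Ded (LL E q) p v := by
  induction h with
  | @nil p =>
    have := Ded.mk (L := LL E p) (j := p) ((0 : M), (0 : T → ℕ)) [] (Or.inr ⟨rfl, rfl⟩)
      (by simp) (by simp)
    simpa using this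
  | @cons p p' q g h v w he _ ih =>
    have := Ded.mk (L := LL E q) (j := p) (v, (Pi.single p' 1 : T → ℕ)) [(p', w)]
      (Or.inl ⟨(p, g, v, p'), ⟨he, rfl⟩, rfl⟩) (by
        intro x hx
        rw [List.mem_singleton] at hx
        subst hx
        exact ih) (by
        intro i
        simp only [List.map_cons, List.map_nil]
        rw [List.count_singleton, Pi.single_apply]
        by_cases hi : p' = i
        · simp [hi]
        · simp [hi, Ne.symm hi])
    simpa using this

open Classical in
lemma of_ded {T M : Type} [AddCommMonoid M] (E : Finset (T × Unit × M × T)) {p q : T}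
    {v : M} (h : Ded (LL E q) p v) : GW E p q 1 v := by
  induction h with
  | @mk p x l hx _ hc ih =>
    rcases hx with ⟨⟨p0, g, w, p'⟩, ⟨he, hp⟩, rfl⟩ | ⟨rfl, rfl⟩
    · simp only at hp hc ih
      subst hp
      have h1 : (l.map Prod.fst).Perm [p'] := by
        rw [List.perm_iff_count]
        intro i
        rw [hc i, List.count_singleton, Pi.single_apply]
        by_cases hi : p' = i
        · simp [hi]
        · simp [hi, Ne.symm hi]
      have h2 := List.perm_singleton.1 h1
      obtain ⟨a, rfl, ha⟩ := List.map_eq_singleton_iff.1 h2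
      subst ha
      have h3 := ih a (List.mem_singleton.2 rfl)
      have h4 := GW.cons he h3
      rw [Subsingleton.elim (g * 1) 1] at h4
      simpa using h4
    · have h1 : (l.map Prod.fst).Perm [] := by
        rw [List.perm_iff_count]
        intro i
        rw [hc i]
        simp
      have h2 := List.perm_nil.1 h1
      have h3 : l = [] := List.map_eq_nil_iff.1 h2
      subst h3
      simpa using (GW.nil : GW E p p 1 0)

theorem t_UNIT (h : S_LFP) : S_UNIT := by
  classical
  intro M T _ _ _ E p q
  have h1 := h M T (LL E q) (fun j => IsSemilinearSet.of_finite (LL_finite E q j)) p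
  have h2 : {v : M | GW E p q 1 v} = {v : M | Ded (LL E q) p v} := by
    ext v
    exact ⟨fun hv => ded_of E hv, fun hv => of_ded E hv⟩
  rw [h2]
  exact h1

end Pool.Agent.K1H52.SR2
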